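import Pool.Agent.QSN.StmtsB2
import Pool.Agent.Helper99_QSX.RDM
import Pool.Agent.Helper67_QSX.SPT
import Pool.Agent.Helper86_QSX.NFL
import Pool.Agent.Helper28_QSX.LGM

/-!
# INQ of squad QSN: injectivity over the residue field
-/

set_option autoImplicit false

namespace Pool.Agent.QSN.H71

open Matrix Finset Pool.Agent.QSX Pool.Agent.QSN Filter Topology

/-- a finite sum of small sequences is small -/
theorem sm_sum (S : Scale) {ι : Type} (t : Finset ι) (f : ι → ℕ → ℝ)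
    (h : ∀ k ∈ t, S.Sm (f k)) : S.Sm (fun s => ∑ k ∈ t, f k s) := by
  classical
  induction t using Finset.induction_on with
  | empty =>
    simp only [Finset.sum_empty]
    exact Scale.Sm.zero S
  | insert a t ha ih =>
    have h1 := h a (Finset.mem_insert_self a t)
    have h2 := ih fun k hk => h k (Finset.mem_insert_of_mem hk)
    have h3 := Scale.Sm.add h1 h2
    have : (fun s => ∑ k ∈ insert a t, f k s) = f a + fun s => ∑ k ∈ t, f k s := by
      funext s
      rw [Finset.sum_insert ha]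
      rfl
    rw [this]
    exact h3

/-- a sequence bounded by one is moderate -/
theorem md_of_le_one (S : Scale) (u : ℕ → ℝ) (h : ∀ s, |u s| ≤ 1) : S.Md u := by
  intro ε hε
  filter_upwards [S.ev_R 0] with s hs
  exact (h s).trans (Real.one_le_exp (mul_nonneg hε.le hs))

/-- a bound for the entries of a matrix -/
theorem exists_bd {m : ℕ} (x : Matrix (Fin m) (Fin m) ℝ) : ∃ K : ℝ, ∀ i j, |x i j| ≤ K := by
  refine ⟨∑ i, ∑ j, |x i j|, fun i j => ?_⟩
  have h1 : |x i j| ≤ ∑ j, |x i j| :=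
    Finset.single_le_sum (f := fun j => |x i j|) (fun j _ => abs_nonneg _) (Finset.mem_univ j)
  have h2 : ∑ j, |x i j| ≤ ∑ i, ∑ j, |x i j| :=
    Finset.single_le_sum (f := fun i => ∑ j, |x i j|)
      (fun i _ => Finset.sum_nonneg fun j _ => abs_nonneg _) (Finset.mem_univ i)
  exact h1.trans h2

theorem abs_sh_le {D : ℕ} (M : ℕ) (k i : Fin D) : |sh M k i| ≤ (M : ℤ) := by
  classical
  unfold sh
  by_cases h : i = k
  · subst h; simp
  · rw [Pi.single_eq_of_ne h]; simp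

theorem e_mem {X : Dat} (hX : MS X) (l : hX.ι) : hX.e l ∈ X.n := by
  rw [← hX.span_e]; exact Submodule.subset_span ⟨l, rfl⟩

theorem ue_w_mem {X : Dat} (hX : MS X) (H : Grd hX) (hCEN : CenStmt) (k : Fin H.D) :
    ue (H.w k) ∈ hX.Gam := by
  have h := (hCEN X hX H).2.1 k 1
  rw [one_smul, one_smul] at h
  rw [← h]
  have h1 : ∀ l, ue (hX.e l) ∈ hX.Gam := by
    intro l
    refine Subgroup.subset_closure ⟨l, 1, ?_⟩
    simp
  exact hX.Gam.mul_mem (hX.Gam.mul_mem (hX.Gam.mul_mem (h1 _) (h1 _)) (hX.Gam.inv_mem (h1 _)))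
    (hX.Gam.inv_mem (h1 _))

/-- the functional `a ↦ P a i - P a l` -/
def wf {V : Type} [AddCommGroup V] [Module ℝ V] {m : ℕ} (P : V →ₗ[ℝ] (Fin m → ℝ)) (i l : Fin m) :
    V →ₗ[ℝ] ℝ where
  toFun a := P a i - P a l
  map_add' a b := by simp only [map_add, Pi.add_apply]; ring
  map_smul' r a := by simp only [map_smul, Pi.smul_apply, smul_eq_mul, RingHom.id_apply]; ring

theorem inq (hLIQ : LiqStmt) (hNVK : NvkStmt) (hSML : SmlStmt) (hCTR : CtrStmt) (hMDV : MdvStmt)
    (hSPV : SpvStmt) (hWKT : WktStmt) (hCEN : CenStmt) : InqStmt := by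
  intro X Y hX H A j v hv hsum
  classical
  by_contra hne
  obtain ⟨Q⟩ := hLIQ X Y hX H A
  obtain ⟨u, hu1, hu2, hu3, hu4⟩ := hNVK A.S H.D v hne
  have hu0 : ∀ k, hX.comp (H.l k) ≠ j → ∀ s, u s k = 0 := fun k hk => hu3 k (hv k hk)
  have hctr := hCTR X Y hX H A Q j u hu1 hu0 hu2
  push Not at hctr
  obtain ⟨i, l, hil, hnsm, hnκ⟩ := hctr
  have hmd : ∀ k, A.S.MdM (fun s => Q.T s (sh (A.M s) k)) := fun k =>
    Q.md (fun s => sh (A.M s) k) fun s i => abs_sh_le _ _ _
  obtain ⟨-, -, -, -, hred⟩ := Pool.Agent.QSX.H99.rdm A.S Y.m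
  -- some entry is not small
  obtain ⟨k0, hk0, hk0s⟩ : ∃ k0, hX.comp (H.l k0) = j ∧
      ¬ A.S.Sm (fun s => Q.T s (sh (A.M s) k0) i l) := by
    by_contra hcon
    push Not at hcon
    apply hnsm
    refine sm_sum A.S Finset.univ (fun k s => u s k * Q.T s (sh (A.M s) k) i l) fun k _ => ?_
    by_cases hk : hX.comp (H.l k) = j
    · exact Scale.Sm.mul_md (md_of_le_one A.S (fun s => u s k) fun s => hu1 s k) (hcon k hk)
    · have : (fun s => u s k * Q.T s (sh (A.M s) k) i l) = 0 := by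
        funext s
        rw [hu0 k hk s, zero_mul]
        rfl
      rw [this]
      exact Scale.Sm.zero A.S
  -- the group elements
  set g := A.V (fun _ => 1) (fun _ => ue (H.w k0)) with hg
  have hbd1 : A.GB (fun _ => 1) := by
    refine ⟨A.gam 1 (Subgroup.one_mem _), 0, Filter.Eventually.of_forall fun s => ⟨0, X.n.zero_mem,
      ?_, ?_⟩⟩
    · apply Units.ext
      rw [ue_val SU.zero, mexp_zero, Units.val_one]
    · intro i j; simp
  have hwn : H.w k0 ∈ X.n := X.lie _ (e_mem hX _) _ (e_mem hX _)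
  obtain ⟨K, hK⟩ := exists_bd (H.w k0)
  have hbd2 : A.GB (fun _ => ue (H.w k0)) :=
    ⟨A.gam _ (ue_w_mem hX H hCEN k0), K, Filter.Eventually.of_forall fun s =>
      ⟨H.w k0, hwn, rfl, hK⟩⟩
  have hUU : UU g := by
    obtain ⟨-, y, hy, hVy⟩ := (hMDV X Y hX H A).1 _ _ hbd1 hbd2
    rw [hg, hVy]
    exact ((Pool.Agent.QSX.H28.lgm A.S.FF Y.m).1 y
      (Pool.Agent.QSX.H86.nF_su Y A.S.FF y hy)).1
  have hsup : ∀ i l : Fin Y.m, i < l → g i l ≠ 0 →
      ∃ κ : ℝ, 0 < κ ∧ ∀ a, A.P a i - A.P a l = κ * hX.rt (hX.top j) a := by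
    intro i l hil hgil
    have h1 := hSPV X Y hX H A (fun _ => 1) (fun _ => ue (H.w k0)) hbd1 hbd2
      {t | hX.rt t = hX.rt (hX.top j)} (fun _ => H.w k0) K
      (Filter.Eventually.of_forall fun s => ⟨by
        have := (hWKT X hX H k0).2.2.1
        rw [hk0] at this
        exact this, hK, by rw [one_mul]⟩) i l hil hgil
    obtain ⟨h2, b, h3⟩ := h1
    obtain ⟨ap, hap⟩ := hX.pos
    obtain ⟨κ, hκ, hκ'⟩ := fks (hX.rt (hX.top j))
      (wf A.P i l)
      ⟨ap, hap _⟩ (by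
        intro a ha
        have := h2 a (by
          intro ν hν
          rw [show hX.rt ν = hX.rt (hX.top j) from hν]
          exact ha)
        exact this)
    have hκ'' : ∀ a, A.P a i - A.P a l = κ * hX.rt (hX.top j) a := by
      intro a
      exact hκ' a
    refine ⟨κ, lt_of_le_of_ne hκ ?_, hκ''⟩
    rintro rfl
    apply h3
    rw [hκ'' b, zero_mul]
  have hLval : ∀ k, mlog (A.V (fun _ => 1) (fun _ => ue (H.w k))) =
      A.S.redM (fun s => Q.T s (sh (A.M s) k)) := fun k => (Q.val k).symm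
  have hL0 : mlog g i l ≠ 0 := by
    rw [hg, hLval k0]
    intro h
    exact hk0s ((hred _ (hmd k0) i l).1 h)
  obtain ⟨κ, hκ, hκa⟩ := ((Pool.Agent.QSX.H67.spt A.S.FF Y.m
    (fun i l => ∃ κ : ℝ, 0 < κ ∧ ∀ a, A.P a i - A.P a l = κ * hX.rt (hX.top j) a) (by
      rintro i j' k - - ⟨κ, hκ, h1⟩ ⟨κ', hκ', h2⟩
      refine ⟨κ + κ', add_pos hκ hκ', fun a => ?_⟩
      have := h1 a
      have := h2 a
      linarith)).2.2 g ⟨hUU, hsup⟩).2 i l hil hL0
  rcases lt_trichotomy κ 1 with h | h | h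
  · obtain ⟨a, ha⟩ := hnκ κ hκ h
    exact ha (hκa a)
  · subst h
    apply hnsm
    refine hu4 (fun k s => Q.T s (sh (A.M s) k) i l) (fun k => hmd k i l) ?_
    have h1 := congrFun (congrFun hsum i) l
    rw [Matrix.sum_apply, Matrix.zero_apply] at h1
    rw [← h1]
    refine Finset.sum_congr rfl fun k _ => ?_
    rw [Matrix.smul_apply, hLval k, smul_eq_mul]
    congr 1
    unfold part
    rw [if_pos (fun a => by rw [hκa a, one_mul])]
    rfl
  · exact hnsm (hSML X Y hX H A Q j u hu1 hu0 i l κ hil h hκa)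

end Pool.Agent.QSN.H71
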