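import Pool.Agent.QSN.StmtsB

/-!
# TPR of squad QSN: the top roots
-/

set_option autoImplicit false

namespace Pool.Agent.QSN.H71

open Matrix Finset Pool.Agent.QSX Pool.Agent.QSN

variable {X : Dat} (hX : MS X)

/-- a nonzero bracket has a factor with `p = q = 1` -/
theorem exists_factor (hBRM : BrmStmt) (l l' : hX.ι) (hne : hX.rt l ≠ hX.rt l')
    (h : hX.e l * hX.e l' - hX.e l' * hX.e l ≠ 0) :
    ∃ t ∈ hX.L l l', t.2.1 = 1 ∧ t.2.2.1 = 1 ∧ hX.rt t.1 = hX.rt l + hX.rt l' ∧
      hX.comp t.1 = hX.comp l := by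
  classical
  rw [hBRM X hX l l' hne] at h
  by_contra hcon
  push Not at hcon
  apply h
  unfold MS.br
  have : ((hX.L l l').filter fun t => t.2.1 = 1 ∧ t.2.2.1 = 1) = [] := by
    rw [List.filter_eq_nil_iff]
    intro t ht h2
    simp only [decide_eq_true_eq] at h2
    have h3 := hX.L_rt l l' t ht
    refine hcon t ht h2.1 h2.2 ?_ (hX.L_comp l l' t ht).1
    rw [h3.2.2, h2.1, h2.2]
    simp
  rw [this]
  simp

theorem le_top (hBRM : BrmStmt) (a : X.b) (ha : ∀ l, 0 < hX.rt l a) (l : hX.ι) :
    hX.rt l a ≤ hX.rt (hX.top (hX.comp l)) a := by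
  classical
  obtain ⟨l1, hl1, hmax⟩ := Finset.exists_max_image
    (Finset.univ.filter fun k => hX.comp k = hX.comp l) (fun k => hX.rt k a)
    ⟨l, by simp⟩
  simp only [Finset.mem_filter, Finset.mem_univ, true_and] at hl1 hmax
  have htop : hX.rt l1 = hX.rt (hX.top (hX.comp l1)) := by
    by_contra hne
    have h0 := hX.climb l1 hne (hX.e l1) (Submodule.subset_span ⟨l1, rfl, rfl⟩) ?_
    · exact hX.lin.ne_zero l1 h0
    · intro k hk
      by_contra hbr
      obtain ⟨t, ht, -, -, hrt, hcomp⟩ := exists_factor hX hBRM l1 k (Ne.symm hk) hbr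
      have h1 := hmax t.1 (by rw [hcomp, hl1])
      rw [hrt] at h1
      have h2 := ha k
      simp only [LinearMap.add_apply] at h1
      linarith
  have := hmax l rfl
  rw [htop, hl1] at this
  exact this

theorem top_comm (hBRM : BrmStmt) (t : hX.ι) (ht : hX.rt t = hX.rt (hX.top (hX.comp t)))
    (k : hX.ι) : hX.e t * hX.e k = hX.e k * hX.e t := by
  classical
  obtain ⟨a, ha⟩ := hX.pos
  by_cases hk : hX.rt t = hX.rt k
  · -- same root
    set z := hX.e t * hX.e k - hX.e k * hX.e t with hz
    have het : hX.e t ∈ X.n := by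
      rw [← hX.span_e]; exact Submodule.subset_span ⟨t, rfl⟩
    have hek : hX.e k ∈ X.n := by
      rw [← hX.span_e]; exact Submodule.subset_span ⟨k, rfl⟩
    have hzn : z ∈ X.n := X.lie _ het _ hek
    rw [← hX.span_e, Submodule.mem_span_range_iff_exists_fun] at hzn
    obtain ⟨c, hc⟩ := hzn
    have hzw : ∀ d : X.b, diagonal (d : Fin X.m → ℝ) * z - z * diagonal (d : Fin X.m → ℝ) =
        (2 * hX.rt t d) • z := by
      intro d
      have h1 := hX.wt t d
      have h2 := hX.wt k d
      rw [← hk] at h2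
      set D := diagonal (d : Fin X.m → ℝ)
      have e1 : D * hX.e t = hX.e t * D + hX.rt t d • hX.e t := by rw [← h1]; abel
      have e2 : D * hX.e k = hX.e k * D + hX.rt t d • hX.e k := by rw [← h2]; abel
      rw [hz]
      have : D * (hX.e t * hX.e k - hX.e k * hX.e t) =
          (hX.e t * hX.e k - hX.e k * hX.e t) * D +
            (2 * hX.rt t d) • (hX.e t * hX.e k - hX.e k * hX.e t) := by
        rw [mul_sub, ← mul_assoc, ← mul_assoc, e1, e2, add_mul, add_mul, mul_assoc, mul_assoc,
          e1, e2]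
        simp only [mul_add, sub_mul, mul_smul_comm, smul_mul_assoc, mul_assoc, two_mul, add_smul,
          smul_sub]
        abel
      rw [this]; abel
    have hci : ∀ i, c i = 0 := by
      intro i
      have hlin : ∀ d : X.b, c i * (hX.rt i d - 2 * hX.rt t d) = 0 := by
        intro d
        have h1 := hzw d
        rw [← hc] at h1
        have h2 : ∑ j, (c j * (hX.rt j d - 2 * hX.rt t d)) • hX.e j = 0 := by
          have h3 : ∀ j, (c j * (hX.rt j d - 2 * hX.rt t d)) • hX.e j =
              (diagonal (d : Fin X.m → ℝ) * (c j • hX.e j) -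
                (c j • hX.e j) * diagonal (d : Fin X.m → ℝ)) -
                (2 * hX.rt t d) • (c j • hX.e j) := by
            intro j
            rw [mul_smul_comm, smul_mul_assoc, ← smul_sub, hX.wt j d, smul_smul, smul_smul,
              ← sub_smul]
            congr 1
            ring
          rw [Finset.sum_congr rfl fun j _ => h3 j, Finset.sum_sub_distrib,
            Finset.sum_sub_distrib, ← Finset.mul_sum, ← Finset.sum_mul, ← Finset.smul_sum, h1,
            sub_self]
        exact (Fintype.linearIndependent_iff.mp hX.lin) _ h2 i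
      by_contra hne
      have hrt : hX.rt i = (2 : ℝ) • hX.rt t := by
        ext d
        have := hlin d
        rcases mul_eq_zero.mp this with h | h
        · exact absurd h hne
        · simp only [LinearMap.smul_apply, smul_eq_mul]
          linarith
      by_cases hit : hX.rt i = hX.rt t
      · rw [hit] at hrt
        have h1 := congrArg (fun f => f a) hrt
        simp only [LinearMap.smul_apply, smul_eq_mul] at h1
        have := ha t
        linarith
      · exact hX.nonprop i t hit 2 hrt
    have hz0 : z = 0 := by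
      rw [← hc]
      simp [hci]
    exact sub_eq_zero.mp hz0
  · by_contra hbr
    have hbr' : hX.e t * hX.e k - hX.e k * hX.e t ≠ 0 := fun h => hbr (sub_eq_zero.mp h)
    obtain ⟨s, hs, -, -, hrt, hcomp⟩ := exists_factor hX hBRM t k hk hbr'
    have h1 := le_top hX hBRM a ha s.1
    rw [hcomp, hrt, ← ht] at h1
    have h2 := ha k
    simp only [LinearMap.add_apply] at h1
    linarith

theorem tpr (hBRM : BrmStmt) : TprStmt := by
  intro X hX
  obtain ⟨a, ha⟩ := hX.pos
  refine ⟨fun a ha l => le_top hX hBRM a ha l, ?_, ?_⟩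
  · intro t ht x hx
    rw [← hX.span_e] at hx
    refine Submodule.span_induction (p := fun x _ => hX.e t * x = x * hX.e t) ?_ ?_ ?_ ?_ hx
    · rintro _ ⟨k, rfl⟩
      exact top_comm hX hBRM t ht k
    · simp
    · intro x y _ _ hx hy
      rw [mul_add, add_mul, hx, hy]
    · intro r x _ hx
      rw [mul_smul_comm, smul_mul_assoc, hx]
  · intro l l' hne hsum t ht
    obtain ⟨hp, hq, hrt⟩ := hX.L_rt l l' t ht
    have hcomp := (hX.L_comp l l' t ht).1
    have h1 := le_top hX hBRM a ha t.1
    rw [hcomp, ← hsum, hrt] at h1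
    simp only [LinearMap.add_apply, LinearMap.smul_apply, smul_eq_mul] at h1
    have hl := ha l
    have hl' := ha l'
    have hp' : (1 : ℝ) ≤ t.2.1 := by exact_mod_cast hp
    have hq' : (1 : ℝ) ≤ t.2.2.1 := by exact_mod_cast hq
    have h2 : (t.2.1 : ℝ) = 1 := by
      by_contra hne1
      have : (1 : ℝ) < t.2.1 := lt_of_le_of_ne hp' (Ne.symm hne1)
      nlinarith [mul_pos (sub_pos.mpr this) hl, mul_nonneg (sub_nonneg.mpr hq') hl'.le]
    have h3 : (t.2.2.1 : ℝ) = 1 := by
      by_contra hne1
      have : (1 : ℝ) < t.2.2.1 := lt_of_le_of_ne hq' (Ne.symm hne1)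
      nlinarith [mul_pos (sub_pos.mpr this) hl', mul_nonneg (sub_nonneg.mpr hp') hl.le]
    refine ⟨by exact_mod_cast h2, by exact_mod_cast h3, ?_⟩
    rw [hrt, h2, h3, one_smul, one_smul, hsum]

end Pool.Agent.QSN.H71
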